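import Pool.Agent.Helper17.SL.GoalsG

/-!
# Project SL: packet RK1 (the rank of a subgroup is the dimension of its rational span)
-/

namespace Pool.Agent.Helper17.SL.PkRK1

open NumberField Module
open Pool.Agent.Helper17.SL

universe w

theorem thm : S_RK1.{w} := by
  classical
  intro V _ _ g e G
  let f : (Fin g → ℤ) →ₗ[ℤ] V :=
    { toFun := fun a ↦ ∑ r, (a r : ℚ) • e r
      map_add' := fun a b ↦ by
        simp only [Pi.add_apply, Int.cast_add, add_smul, Finset.sum_add_distrib]
      map_smul' := fun c a ↦ by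
        simp only [Pi.smul_apply, smul_eq_mul, Int.cast_mul, mul_smul, RingHom.id_apply,
          Finset.smul_sum, Int.cast_smul_eq_zsmul] }
  have hf : ∀ a, f a = ∑ r, (a r : ℚ) • e r := fun a ↦ rfl
  have hinj : Function.Injective f := by
    rw [← LinearMap.ker_eq_bot, LinearMap.ker_eq_bot']
    intro a ha
    rw [hf] at ha
    have h := Fintype.linearIndependent_iff.1 e.linearIndependent (fun r ↦ (a r : ℚ)) ha
    funext r
    have := h r
    exact_mod_cast this
  let b := Module.finBasis ℤ G
  let v : Fin (finrank ℤ G) → V := fun i ↦ f (b i : Fin g → ℤ)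
  have hv : LinearIndependent ℤ v := by
    have h1 : LinearIndependent ℤ (fun i ↦ ((b i : G) : Fin g → ℤ)) :=
      b.linearIndependent.map' G.subtype (Submodule.ker_subtype G)
    exact h1.map' f (LinearMap.ker_eq_bot.2 hinj)
  have hvQ : LinearIndependent ℚ v := (LinearIndependent.iff_fractionRing ℤ ℚ).1 hv
  have hspan : Submodule.span ℚ {v : V | ∃ a ∈ G, v = ∑ r, (a r : ℚ) • e r} =
      Submodule.span ℚ (Set.range v) := by
    apply le_antisymm
    · rw [Submodule.span_le]
      rintro _ ⟨a, ha, rfl⟩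
      rw [← hf]
      have h1 : (⟨a, ha⟩ : G) = ∑ i, b.repr ⟨a, ha⟩ i • b i := (b.sum_repr ⟨a, ha⟩).symm
      have h2 : a = ∑ i, b.repr ⟨a, ha⟩ i • ((b i : G) : Fin g → ℤ) := by
        have := congrArg (G.subtype) h1
        simpa only [Submodule.subtype_apply, map_sum, map_smul] using this
      rw [h2, map_sum]
      refine Submodule.sum_mem _ fun i _ ↦ ?_
      rw [map_smul, ← Int.cast_smul_eq_zsmul ℚ]
      exact Submodule.smul_mem _ _ (Submodule.subset_span ⟨i, rfl⟩)
    · rw [Submodule.span_le]
      rintro _ ⟨i, rfl⟩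
      exact Submodule.subset_span ⟨_, (b i).2, rfl⟩
  rw [hspan, finrank_span_eq_card hvQ, Fintype.card_fin]

end Pool.Agent.Helper17.SL.PkRK1
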