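import Pool.Agent.Helper17.SL.GoalsB

/-!
# Project SL: packet SIXA (the strong `p`-adic six exponentials theorem from the general theorem)
-/

namespace Pool.Agent.Helper17.SL.PkSIXA

open Pool.Agent.Helper51.SigLeo Pool.Agent.Helper51.SixExp NumberField Module
open Pool.Agent.Helper17.SL

universe u v w x

section isLog

variable {p : ℕ} [Fact p.Prime] {k : Type v} [NormedField k] [NormedAlgebra ℚ_[p] k]
  [IsUltrametricDist k] [CharZero k] {Ω : Type u} [Field Ω] [CharZero Ω] {ι : Ω →+* k}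
  {Λ : IwasawaLog p k}

theorem isLog_sum (hSC : S_SC.{u, v}) {α : Type*} (s : Finset α) (f : α → k)
    (hf : ∀ a ∈ s, IsLog Λ ι (f a)) : IsLog Λ ι (∑ a ∈ s, f a) := by
  classical
  obtain ⟨h0, hadd, -⟩ := hSC p k Ω ι Λ
  induction s using Finset.induction_on with
  | empty => simpa using h0
  | insert a s ha ih =>
    rw [Finset.sum_insert ha]
    exact hadd _ _ (hf a (Finset.mem_insert_self a s))
      (ih fun b hb ↦ hf b (Finset.mem_insert_of_mem hb))

end isLog

/-- real arithmetic of the final contradiction -/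
theorem arith {φ d l r' n' m' : ℝ} {β : ℝ} (hφ : 0 < φ) (hd : 0 < d) (hr : 0 ≤ r')
    (hβ : β * ((d + l) * φ) < d) (hβ0 : 0 < β) (hn : φ * n' ≤ (φ - 1) * r') (hm : d * m' ≤ l * r')
    (h : (1 - β) * r' ≤ n' + β * m') : r' = 0 := by
  by_contra hne
  have hr' : 0 < r' := lt_of_le_of_ne hr (Ne.symm hne)
  have h1 : d * φ * ((1 - β) * r') ≤ d * φ * (n' + β * m') :=
    mul_le_mul_of_nonneg_left h (by positivity)
  have h2 : d * φ * (n' + β * m') = d * (φ * n') + φ * β * (d * m') := by ring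
  have h3 : d * (φ * n') ≤ d * ((φ - 1) * r') := mul_le_mul_of_nonneg_left hn hd.le
  have h4 : φ * β * (d * m') ≤ φ * β * (l * r') := mul_le_mul_of_nonneg_left hm (by positivity)
  have h5 : r' * (d - β * ((d + l) * φ)) ≤ 0 := by nlinarith
  have h6 : 0 < r' * (d - β * ((d + l) * φ)) := mul_pos hr' (by linarith)
  linarith

theorem thm (hGEN : S_GEN.{u, v, w, max w u, 0}) (hLA : S_LA.{w, u}) (hLB : S_LB.{w, v})
    (hSA : S_SA.{w, u, v, x}) (hSB : S_SB.{w, v, x}) (hSC : S_SC.{u, v}) :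
    S_SIXA.{u, v, w, x} := by
  classical
  intro p _ k _ _ _ _ _ Ω _ _ _ _ ι Λ E _ _ lam d l R _ b y M hy hM hdl hmin
  by_contra hcon
  rw [not_or] at hcon
  obtain ⟨hrow, hcol⟩ := hcon
  push Not at hrow hcol
  have hd : 0 < d := by
    rcases Nat.eq_zero_or_pos d with h | h
    · rw [h] at hdl; omega
    · exact h
  have hl : 0 < l := by
    rcases Nat.eq_zero_or_pos l with h | h
    · rw [h] at hdl; omega
    · exact h
  -- `M ≠ 0`
  obtain ⟨i0, j0, hij⟩ : ∃ i0 j0, M i0 j0 ≠ 0 := by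
    by_contra hM0
    push Not at hM0
    obtain ⟨j, hj⟩ := hrow (fun _ ↦ 1) (fun h ↦ one_ne_zero (congrFun h ⟨0, hd⟩))
    exact hj (Finset.sum_eq_zero fun i _ ↦ by rw [hM0, mul_zero])
  obtain ⟨X0, hX0⟩ : ∃ X0 : Fin d → k, X0 = fun i ↦ M i j0 := ⟨_, rfl⟩
  obtain ⟨Y0, hY0⟩ : ∃ Y0 : Fin l → k, Y0 = fun j ↦ M i0 j / M i0 j0 := ⟨_, rfl⟩
  have hMr : ∀ i j, M i j = X0 i * Y0 j := by
    intro i j
    rw [hX0, hY0]
    have := hmin i i0 j j0
    field_simp
    linear_combination this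
  obtain ⟨xx, hxx⟩ : ∃ xx : Fin d → Fin l → R → k, xx = fun i j r ↦
    Λ.toFun (Units.map (ι : Ω →* k) (y i j r)) := ⟨_, rfl⟩
  have hMx : ∀ i j, M i j = ∑ r, ι (lam (b i j r)) * xx i j r := by
    intro i j
    rw [hM, hxx]
  have hxlog : ∀ i j r, IsLog Λ ι (xx i j r) := by
    intro i j r
    refine ⟨1, one_pos, y i j r, hy i j r, ?_⟩
    rw [Nat.cast_one, one_mul, hxx]
  -- the form
  have hBlog : ∀ a c, IsLog Λ ι (Bform b xx a c) := by
    intro a c
    have hq := (hSC p k Ω ι Λ).2.2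
    show IsLog Λ ι (∑ i, ∑ j, ∑ r, (Algebra.trace ℚ E (a i * c j * b i j r)) • xx i j r)
    exact isLog_sum hSC _ _ fun i _ ↦ isLog_sum hSC _ _ fun j _ ↦ isLog_sum hSC _ _ fun r _ ↦
      hq _ _ (hxlog i j r)
  have hBE : ∀ (e : E) a c, Bform b xx (e • a) c = Bform b xx a (e • c) := by
    intro e a c
    show (∑ i, ∑ j, ∑ r, (Algebra.trace ℚ E ((e • a) i * c j * b i j r)) • xx i j r) =
      ∑ i, ∑ j, ∑ r, (Algebra.trace ℚ E (a i * (e • c) j * b i j r)) • xx i j r
    refine Finset.sum_congr rfl fun i _ ↦ Finset.sum_congr rfl fun j _ ↦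
      Finset.sum_congr rfl fun r _ ↦ ?_
    rw [Pi.smul_apply, Pi.smul_apply, smul_eq_mul, smul_eq_mul]
    congr 2
    ring
  have hprod : ∀ (a : Fin d → E) (c : Fin l → E),
      ∑ i, ∑ j, ι (lam (a i)) * ι (lam (c j)) * M i j =
        (∑ i, ι (lam (a i)) * X0 i) * ∑ j, ι (lam (c j)) * Y0 j := by
    intro a c
    rw [Finset.sum_mul]
    refine Finset.sum_congr rfl fun i _ ↦ ?_
    rw [Finset.mul_sum]
    refine Finset.sum_congr rfl fun j _ ↦ ?_
    rw [hMr]
    ring
  have hnd : ∀ a c, (∀ e : E, Bform b xx (e • a) c = 0) → a = 0 ∨ c = 0 := by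
    intro a c h
    have h1 := hSB E k (ι.comp lam) d l R b xx a c h
    simp only [RingHom.comp_apply, ← hMx] at h1
    rw [hprod] at h1
    rcases mul_eq_zero.1 h1 with h2 | h2
    · left
      by_contra hne
      obtain ⟨j, hj⟩ := hrow a hne
      apply hj
      calc ∑ i, ι (lam (a i)) * M i j = (∑ i, ι (lam (a i)) * X0 i) * Y0 j := by
            rw [Finset.sum_mul]
            exact Finset.sum_congr rfl fun i _ ↦ by rw [hMr]; ring
        _ = 0 := by rw [h2, zero_mul]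
    · right
      by_contra hne
      obtain ⟨i, hi⟩ := hcol c hne
      apply hi
      calc ∑ j, ι (lam (c j)) * M i j = (∑ j, ι (lam (c j)) * Y0 j) * X0 i := by
            rw [Finset.sum_mul]
            exact Finset.sum_congr rfl fun j _ ↦ by rw [hMr]; ring
        _ = 0 := by rw [h2, zero_mul]
  -- dimensions
  obtain ⟨φ, hφ⟩ : ∃ φ : ℕ, φ = finrank ℚ E := ⟨_, rfl⟩
  have hφ0 : 0 < φ := by rw [hφ]; exact Module.finrank_pos
  have hdV : finrank ℚ (Fin d → E) = d * φ := by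
    rw [Module.finrank_pi_fintype]
    simp [hφ]
  have hlV : finrank ℚ (Fin l → E) = l * φ := by
    rw [Module.finrank_pi_fintype]
    simp [hφ]
  have : Fintype {σ : E →+* Ω // σ ≠ lam} := Fintype.ofFinite _
  have hcI : Fintype.card ({σ : E →+* Ω // σ ≠ lam} × Fin d) = (φ - 1) * d := by
    rw [Fintype.card_prod, Fintype.card_fin]
    congr 1
    rw [Fintype.card_subtype_compl (fun σ : E →+* Ω ↦ σ = lam), Fintype.card_subtype_eq,
      NumberField.Embeddings.card, hφ]
  -- the maps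
  obtain ⟨cb, -⟩ : ∃ cb : Basis (Fin (finrank ℚ (Fin l → E))) ℚ (Fin l → E), True :=
    ⟨Module.finBasis ℚ (Fin l → E), trivial⟩
  let Y : Fin (finrank ℚ (Fin l → E)) → (Fin d → E) →ₗ[ℚ] k := fun j ↦ (Bform b xx).flip (cb j)
  have hY : ∀ j a, Y j a = Bform b xx a (cb j) := fun j a ↦ rfl
  -- the span
  let G : Option ({σ : E →+* Ω // σ ≠ lam} × Fin d) → (Fin d → E) → k := fun o a ↦
    o.elim (∑ i, ι (lam (a i)) * X0 i) (fun q ↦ ι (conjX lam d q a))
  have hspan : Submodule.span k ((Set.range fun i ↦ (fun v ↦ ι (conjX lam d i v) : (Fin d → E) → k)) ∪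
      (Set.range fun j ↦ (fun v ↦ Y j v : (Fin d → E) → k))) ≤ Submodule.span k (Set.range G) := by
    rw [Submodule.span_le]
    rintro f (⟨q, rfl⟩ | ⟨j, rfl⟩)
    · exact Submodule.subset_span ⟨some q, rfl⟩
    · have hYj : (fun v ↦ Y j v : (Fin d → E) → k) =
          (∑ j', ι (lam (cb j j')) * Y0 j') • G none +
          ∑ q : {σ : E →+* Ω // σ ≠ lam} × Fin d,
            (∑ j', ι (q.1.1 (cb j j')) * ∑ r, ι (q.1.1 (b q.2 j' r)) * xx q.2 j' r) •
              G (some q) := by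
        funext a
        rw [hY, hSA E Ω k ι d l R b xx a (cb j)]
        rw [Pi.add_apply, Finset.sum_apply]
        simp only [Pi.smul_apply, smul_eq_mul]
        rw [← Finset.add_sum_erase Finset.univ _ (Finset.mem_univ lam)]
        congr 1
        · have := hprod a (cb j)
          simp only [hMx] at this
          rw [this]
          show _ = (∑ j', ι (lam (cb j j')) * Y0 j') * ∑ i, ι (lam (a i)) * X0 i
          ring
        · rw [Fintype.sum_prod_type]
          rw [← Finset.sum_subtype_of_mem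
            (f := fun σ : E →+* Ω ↦ ∑ i, ∑ j', ι (σ (a i)) * ι (σ (cb j j')) *
              ∑ r, ι (σ (b i j' r)) * xx i j' r) (s := Finset.univ.erase lam)
              (p := fun σ ↦ σ ≠ lam) (fun σ hσ ↦ (Finset.mem_erase.1 hσ).1)]
          have hs : (Finset.univ.erase lam).subtype (fun σ : E →+* Ω ↦ σ ≠ lam) = Finset.univ := by
            ext σ
            simp [σ.2]
          rw [hs]
          refine Finset.sum_congr rfl fun σ _ ↦ Finset.sum_congr rfl fun i _ ↦ ?_
          show _ = (∑ j', ι (σ.1 (cb j j')) * ∑ r, ι (σ.1 (b i j' r)) * xx i j' r) * ι (σ.1 (a i))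
          rw [Finset.sum_mul]
          refine Finset.sum_congr rfl fun j' _ ↦ ?_
          ring
      show (fun v ↦ Y j v : (Fin d → E) → k) ∈ Submodule.span k (Set.range G)
      rw [hYj]
      refine Submodule.add_mem _ (Submodule.smul_mem _ _ (Submodule.subset_span ⟨none, rfl⟩))
        (Submodule.sum_mem _ fun q _ ↦ Submodule.smul_mem _ _ (Submodule.subset_span ⟨some q, rfl⟩))
  have hN : finrank k (Submodule.span k
      ((Set.range fun i ↦ (fun v ↦ ι (conjX lam d i v) : (Fin d → E) → k)) ∪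
      (Set.range fun j ↦ (fun v ↦ Y j v : (Fin d → E) → k)))) ≤ (φ - 1) * d + 1 := by
    haveI : FiniteDimensional k (Submodule.span k (Set.range G)) :=
      FiniteDimensional.span_of_finite k (Set.finite_range G)
    refine (Submodule.finrank_mono hspan).trans ?_
    have h1 := finrank_range_le_card (R := k) G
    rw [Fintype.card_option, hcI] at h1
    exact h1
  -- real constants
  have hφR : (0 : ℝ) < φ := by exact_mod_cast hφ0
  have hdR : (0 : ℝ) < d := by exact_mod_cast hd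
  have hlR : (0 : ℝ) < l := by exact_mod_cast hl
  have hdlR : (d : ℝ) + l < d * l := by exact_mod_cast hdl
  obtain ⟨β, hβ1, hβ2⟩ : ∃ β : ℝ, 1 / (l * φ : ℝ) < β ∧ β < d / ((d + l) * φ) := by
    refine exists_between ?_
    rw [div_lt_div_iff₀ (by positivity) (by positivity)]
    nlinarith
  have hβ0 : 0 < β := lt_trans (by positivity) hβ1
  have hβ3 : β * ((d + l) * φ) < d := by rwa [lt_div_iff₀ (by positivity)] at hβ2
  have hφ1 : (1 : ℝ) ≤ φ := by exact_mod_cast hφ0
  have hβlt : β < 1 := by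
    refine lt_of_lt_of_le hβ2 ?_
    rw [div_le_one (by positivity)]
    nlinarith
  have hβ4 : 1 < β * (l * φ) := by rwa [div_lt_iff₀ (by positivity)] at hβ1
  obtain ⟨A, hA1, hA2⟩ := hGEN p k Ω ι Λ (Fin d → E) ({σ : E →+* Ω // σ ≠ lam} × Fin d)
    (Fin (finrank ℚ (Fin l → E))) (conjX lam d) Y ((φ - 1) * d + 1) β
    (fun j v ↦ hBlog v (cb j)) (Nat.succ_pos _) hN hβ0 hβlt (by
      rw [hcI, Fintype.card_fin, hlV]
      push_cast
      linarith)
  -- the consequence of LA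
  have hA3 := hLA E Ω lam d A
  rw [← hφ] at hA3
  -- the consequence of LB
  have hA4 := hLB E k d l (Bform b xx) hBE hnd A
    ((relY Y A).map (cb.equivFun.symm : (Fin (finrank ℚ (Fin l → E)) → ℚ) →ₗ[ℚ] (Fin l → E))) (by
      rintro c ⟨s, hs, rfl⟩ a ha
      have hs' : ∀ v ∈ A, ∑ j, s j • Y j v = 0 := hs
      have h1 := hs' a ha
      show Bform b xx a (cb.equivFun.symm s) = 0
      rw [Basis.equivFun_symm_apply, map_sum]
      simp only [map_smul]
      exact h1)
  rw [LinearEquiv.finrank_map_eq, ← hφ] at hA4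
  obtain ⟨s, hs⟩ : ∃ s : ℕ, s = finrank Ω (spanX (conjX lam d) A) := ⟨_, rfl⟩
  obtain ⟨m', hm'⟩ : ∃ m' : ℕ, m' = finrank ℚ (relY Y A) := ⟨_, rfl⟩
  obtain ⟨rA, hrA⟩ : ∃ rA : ℕ, rA = finrank ℚ A := ⟨_, rfl⟩
  rw [← hs, ← hrA] at hA3
  rw [← hm', ← hrA] at hA4
  rw [← hs, ← hm', hcI] at hA1
  rw [← hs, ← hm', ← hrA, hcI, hdV] at hA2
  have hrle : rA ≤ d * φ := by
    rw [hrA, ← hdV]
    exact Submodule.finrank_le A
  have hsle : s ≤ (φ - 1) * d := by
    rw [hs, ← hcI, ← Module.finrank_fintype_fun_eq_card (R := Ω)]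
    exact Submodule.finrank_le _
  have hφs : ((φ - 1 : ℕ) : ℝ) = (φ : ℝ) - 1 := by
    rw [Nat.cast_sub hφ0, Nat.cast_one]
  have hA3R : ((φ : ℝ) - 1) * rA ≤ φ * s := by
    rw [← hφs]
    exact_mod_cast hA3
  have hA4R : (d : ℝ) * m' + l * rA ≤ l * (d * φ) := by exact_mod_cast hA4
  have hrleR : (rA : ℝ) ≤ d * φ := by exact_mod_cast hrle
  have hsleR : (s : ℝ) ≤ ((φ : ℝ) - 1) * d := by
    rw [← hφs]
    exact_mod_cast hsle
  push_cast at hA2
  rw [hφs] at hA2
  have hzero : ((d : ℝ) * φ - rA) = 0 := by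
    refine arith (φ := φ) (d := d) (l := l) (n' := ((φ : ℝ) - 1) * d - s) (m' := m') (β := β) hφR hdR
      (by linarith) hβ3 hβ0 ?_ ?_ hA2
    · nlinarith
    · nlinarith
  have hm0 : (m' : ℝ) ≤ 0 := by
    have : (d : ℝ) * m' ≤ 0 := by nlinarith
    by_contra h
    push Not at h
    have := mul_pos hdR h
    linarith
  have hm00 : m' = 0 := by
    have : (0 : ℝ) ≤ m' := Nat.cast_nonneg _
    exact_mod_cast le_antisymm hm0 this
  rcases hA1 with h | h
  · apply h
    have h1 : ((φ : ℝ) - 1) * d ≤ s := by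
      have : φ * (((φ : ℝ) - 1) * d) ≤ φ * s := by nlinarith
      exact le_of_mul_le_mul_left this hφR
    have h2 : (s : ℝ) = ((φ : ℝ) - 1) * d := le_antisymm hsleR h1
    rw [← hφs] at h2
    exact_mod_cast h2
  · exact h hm00

end Pool.Agent.Helper17.SL.PkSIXA
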